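import Mathlib
import Pool.Agent.Q24.PI.Main

/-!
# c-conjugacy and p-conjugacy in symmetric inverse monoids on arbitrary sets

The symmetric inverse monoid of `X` is `X ≃. X` (bijections between subsets of `X`), with
composition from left to right `PEquiv.trans`, identity `PEquiv.refl X` and zero `⊥`.
-/

set_option autoImplicit false

namespace Pool.Agent.Results.MP_3f621b_al.Conjugacy

open Pool.Q24.PI

universe u

/-- Let `X` be any set (of any cardinality) and let `α`, `β` be elements of the symmetric inverse
monoid on `X`.  Numbers of components are cardinal numbers.

(Q1) `α` and `β` are c-conjugate if and only if they have, for every `n`, the same number of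
cycles of length `n`, the same number of double rays, the same number of components that are
double or right rays, the same number of left rays, and, for every `k ≥ 2`, the same number of
components that are left rays or finite chains with at least `k` points.

(Q2) `α` and `β` are p-conjugate if and only if they have, for every `n`, the same number of
cycles of length `n`, the same numbers of double rays, of right rays and of left rays, and, for
all `2 ≤ a ≤ b`, the number of finite chains of `α` with at least `a` and at most `b` points is
at most the number of finite chains of `β` with at least `a - 1` and at most `b + 1` points, and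
the same with `α` and `β` interchanged. -/
theorem result {X : Type u} (α β : X ≃. X) :
    (CConj α β ↔
      (∀ n, cycles α n = cycles β n) ∧ doubleRays α = doubleRays β ∧
      doubleRays α + rightRays α = doubleRays β + rightRays β ∧ leftRays α = leftRays β ∧
      (∀ k, 2 ≤ k → leftRays α + chainsFrom α k = leftRays β + chainsFrom β k)) ∧
    (PConj α β ↔
      (∀ n, cycles α n = cycles β n) ∧ doubleRays α = doubleRays β ∧
      rightRays α = rightRays β ∧ leftRays α = leftRays β ∧
      (∀ a b, 2 ≤ a → a ≤ b →
        chainsBetween α a b ≤ chainsBetween β (a - 1) (b + 1) ∧
        chainsBetween β a b ≤ chainsBetween α (a - 1) (b + 1))) :=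
  ⟨cconj_iff α β, pconj_iff α β⟩

end Pool.Agent.Results.MP_3f621b_al.Conjugacy
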